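import Pool.Agent.MP_1246c0_nt.H25.SpecA

/-! Passage from a solution in a discrete valuation ring to a lattice. -/

set_option autoImplicit false

namespace Pool.Agent.MP_1246c0_nt.H25

open Matrix Pool.Agent.MP_db5b97_nt.H85
open Pool.Agent.MP_1246c0_nt.H12

namespace LWL

section Pull

variable {M M' : Type} [AddCommGroup M] [AddCommGroup M'] {T : Module.End ℤ M}
  {T' : Module.End ℤ M'} (f : M →+ M')

theorem mu_le {i j : ℕ} (h : i ≤ j) : Mu M j ≤ Mu M i := by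
  rintro _ ⟨y, rfl⟩
  refine ⟨2 ^ (j - i) • y, ?_⟩
  change 2 ^ i • 2 ^ (j - i) • y = 2 ^ j • y
  rw [← mul_smul, ← pow_add, Nat.add_sub_cancel' h]

theorem acn_map (hf : ∀ x, f (T x) = T' (f x)) (d n : ℕ) (h : Ga) (x : M) :
    f (acn d n T h x) = acn d n T' h (f x) := by
  have h1 : ∀ (m : ℕ) (x : M), f ((T ^ m) x) = (T' ^ m) (f x) := fun m => by
    induction m with
    | zero => exact fun _ => rfl
    | succ m ih =>
      intro x
      rw [pow_succ, pow_succ, Module.End.mul_apply, Module.End.mul_apply, ih, hf]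
  rw [acn, acn]
  generalize (chi d h).val = k
  induction k with
  | zero => simpa using h1 _ x
  | succ k ih =>
    simp only [pow_succ, mul_neg, mul_one, neg_mul, LinearMap.neg_apply, map_neg, ih]

theorem cc_comap (hf : ∀ x, f (T x) = T' (f x)) {Φ : Frm} {d P n : ℕ} {A : AddSubgroup M'}
    {ψ : Ga → M} (h : Cc Φ d P n T' A fun g => f (ψ g)) : Cc Φ d P n T (A.comap f) ψ := by
  have e : ∀ p, f (Eo d n T ψ p) = Eo d n T' (fun g => f (ψ g)) p := fun p => by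
    simp only [Eo, map_sub, map_nsmul, acn_map f hf]
  obtain ⟨U, hU, hi⟩ := h.inv
  refine ⟨fun g g' => ?_, ⟨U, hU, fun g u hu => ?_⟩, h.unr, h.nrm, fun hd => ?_, ?_⟩
  · rw [AddSubgroup.mem_comap, map_sub, map_sub, acn_map f hf]
    exact h.coc g g'
  · rw [AddSubgroup.mem_comap, map_sub]
    exact hi g u hu
  · rw [AddSubgroup.mem_comap, e]
    exact h.two hd
  · rw [AddSubgroup.mem_comap, e]
    exact h.four

end Pull

section Lat

/-- reduction of vectors -/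
def rd (ℓ m : ℕ) : (Fin ℓ → ℤ) →+ Fin ℓ → ZMod m := (Int.castAddHom (ZMod m)).compLeft (Fin ℓ)

variable {ℓ J : ℕ}

theorem rd_surj (m : ℕ) : Function.Surjective (rd ℓ m) := fun x => by
  choose y hy using fun i => ZMod.intCast_surjective (x i)
  exact ⟨y, funext hy⟩

theorem rd_zero {y : Fin ℓ → ℤ} : rd ℓ (2 ^ J) y = 0 ↔ y ∈ Mu (Fin ℓ → ℤ) J := by
  constructor
  · intro h
    choose z hz using fun i => (ZMod.intCast_zmod_eq_zero_iff_dvd _ _).1 (congrFun h i)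
    exact ⟨z, funext fun i => (nsmul_eq_mul _ _).trans (hz i).symm⟩
  · rintro ⟨z, rfl⟩
    funext i
    exact (ZMod.intCast_zmod_eq_zero_iff_dvd _ _).2 ⟨z i, nsmul_eq_mul _ _⟩

theorem rd_bar (g : Matrix (Fin ℓ) (Fin ℓ) ℤ) (y : Fin ℓ → ℤ) :
    rd ℓ 2 (toLin' g y) = bar g *ᵥ rd ℓ 2 y :=
  funext fun i => RingHom.map_mulVec (Int.castRingHom (ZMod 2)) g y i

variable {R B : Type} [CommRing R] [AddCommGroup B] [Module R B]
  (π : B →+ Fin ℓ → ZMod (2 ^ J))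

/-- scalars together with their lifts -/
def Lf : Subring (R × Module.End ℤ (Fin ℓ → ℤ)) where
  carrier := {z | ∀ x y, rd ℓ _ y = π x → rd ℓ _ (z.2 y) = π (z.1 • x)}
  mul_mem' := fun {z z'} h h' x y e => by
    rw [Prod.fst_mul, mul_smul]
    exact h _ _ (h' x y e)
  one_mem' := fun x y e => by
    rw [Prod.fst_one, one_smul]
    exact e
  add_mem' := fun {z z'} h h' x y e => by
    rw [Prod.fst_add, add_smul, map_add, ← h x y e, ← h' x y e, ← map_add]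
    rfl
  zero_mem' := fun x y _ => by simp
  neg_mem' := fun {z} h x y e => by
    rw [Prod.fst_neg, neg_smul, map_neg, ← h x y e, ← map_neg]
    rfl

variable {π}

theorem lf_ex (hπ : Function.Surjective π) (r : R) (hr : ∀ x, π x = 0 → π (r • x) = 0) :
    ∃ g : Matrix (Fin ℓ) (Fin ℓ) ℤ, (r, toLin' g) ∈ Lf π := by
  obtain ⟨σ, hσ⟩ := Module.projective_lifting_property π.toIntLinearMap (rd ℓ _).toIntLinearMap hπ
  obtain ⟨A, hA⟩ := Module.projective_lifting_property (rd ℓ (2 ^ J)).toIntLinearMap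
    ((π.comp (DistribSMul.toAddMonoidHom B r)).toIntLinearMap ∘ₗ σ) (rd_surj _)
  refine ⟨LinearMap.toMatrix' A, fun x y e => ?_⟩
  have h1 : π (σ y) = rd ℓ _ y := LinearMap.congr_fun hσ y
  have h2 : rd ℓ _ (A y) = π (r • σ y) := LinearMap.congr_fun hA y
  have h3 := hr (σ y - x) (by rw [map_sub, h1, e, sub_self])
  rw [smul_sub, map_sub, sub_eq_zero] at h3
  rw [Matrix.toLin'_toMatrix']
  exact h2.trans h3

theorem lf_zero (hπ : Function.Surjective π) {z : R × Module.End ℤ (Fin ℓ → ℤ)} (hz : z ∈ Lf π)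
    (h0 : z.1 = 0) (y : Fin ℓ → ℤ) : z.2 y ∈ Mu (Fin ℓ → ℤ) J := by
  obtain ⟨x, hx⟩ := hπ (rd ℓ _ y)
  rw [← rd_zero, hz x y hx.symm, h0, zero_smul, map_zero]

end Lat

/-- the relations between the three scalars -/
structure Sc {R : Type} [CommRing R] (τ s u : R) (a n' : ℕ) : Prop where
  hs : τ ^ 2 ^ a - 1 - 2 * s = 0
  hu : a ≠ 0 → u * (τ ^ 2 ^ (a - 1) - 1) - 2 = 0
  h0 : a = 0 → u = 0
  nil : ∃ k : ℕ, u ^ k = 0
  pw : τ ^ 2 ^ n' - 1 = 0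

theorem adm {ℓ J a n' : ℕ} {R B : Type} [CommRing R] [AddCommGroup B] [Module R B]
    {π : B →+ Fin ℓ → ZMod (2 ^ J)} (hπ : Function.Surjective π) (hJ : 2 ≤ J) {τ s u : R}
    (H : Sc τ s u a n') {T S U : Module.End ℤ (Fin ℓ → ℤ)} (hT : (τ, T) ∈ Lf π)
    (hS : (s, S) ∈ Lf π) (hU : (u, U) ∈ Lf π) :
    Adm T S U a ∧ ∀ x, (T ^ 2 ^ n') x - x ∈ Mu (Fin ℓ → ℤ) J := by
  have h1 : Mu (Fin ℓ → ℤ) J ≤ Mu _ 1 := mu_le (by omega)
  have cm : ∀ {r r' : R} {A A' : Module.End ℤ (Fin ℓ → ℤ)}, (r, A) ∈ Lf π → (r', A') ∈ Lf π →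
      ∀ x, A (A' x) - A' (A x) ∈ Mu (Fin ℓ → ℤ) 2 := fun h h' x =>
    mu_le hJ (lf_zero hπ (sub_mem (mul_mem h h') (mul_mem h' h))
      (sub_eq_zero.2 (mul_comm _ _)) x)
  have two : ((2 : R), (2 : Module.End ℤ (Fin ℓ → ℤ))) ∈ Lf π := ofNat_mem (Lf π) 2
  obtain ⟨k, hk⟩ := H.nil
  refine ⟨⟨fun x h => (smul_eq_zero.1 h).resolve_left two_ne_zero, cm hT hS, cm hT hU, cm hS hU,
    fun x => ?_, fun ha x => ?_, fun ha x => h1 (lf_zero hπ hU (H.h0 ha) x),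
    k, fun x => h1 (lf_zero hπ (pow_mem hU k) hk x)⟩, fun x =>
    lf_zero hπ (sub_mem (pow_mem hT _) (one_mem _)) H.pw x⟩
  · exact mu_le hJ (lf_zero hπ (sub_mem (sub_mem (pow_mem hT _) (one_mem _)) (mul_mem two hS))
      H.hs x)
  · exact mu_le hJ (lf_zero hπ (sub_mem (mul_mem hU (sub_mem (pow_mem hT _) (one_mem _))) two)
      (H.hu ha) x)

variable {ι : Type} [Fintype ι] [DecidableEq ι] {Φ : Frm} {pr : ι → ℕ} {P : ℕ} {i1 : ι}
  {ρ J n n' a : ℕ}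

theorem main (C : SCC) (G : SGAP) (hΦ : Ax1 Φ) (hL : Lb pr P i1) (hJ : 2 ≤ J) (hn : a + J ≤ n)
    {R B : Type} [CommRing R] [AddCommGroup B] [Module R B] [Finite B] {τ s u : R}
    (H : Sc τ s u a n') {T : Module.End ℤ B} (hT : ∀ x, T x = τ • x) {ψ : Ga → B}
    (hψ : Cc Φ (dd pr P) P n' T ⊥ ψ)
    (gen : ∀ W : AddSubgroup B, (∀ x ∈ W, τ • x ∈ W ∧ s • x ∈ W ∧ u • x ∈ W) → (∀ h, ψ h ∈ W) →
      W = ⊤)
    (h2 : ∀ y : B, ∃ k : ℕ, 2 ^ k • y = 0) (hρ : (Mu B 1).index ≤ 2 ^ ρ)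
    (hy : ∃ y : B, 2 ^ (J * (ρ + 1)) • y ≠ 0) :
    ∃ (ℓ : ℕ) (μ : Md ℓ), 1 ≤ ℓ ∧ μ.a = a ∧ μ.n = n ∧ μ.Ok J ∧ (Vg Φ μ pr P J).Nonempty := by
  obtain ⟨ℓ, i, π, hℓ, -, hπ, hk⟩ := G B ρ J h2 hρ hy
  have st : ∀ (r : R) (x : B), π x = 0 → π (r • x) = 0 := fun r x h => by
    obtain ⟨y, hy⟩ := mem_Mu.1 ((hk x).1 h)
    exact (hk _).2 (mem_Mu.2 ⟨r • y, by rw [smul_comm, hy, smul_comm]⟩)
  obtain ⟨g, hg⟩ := lf_ex hπ τ (st τ)
  obtain ⟨g', hg'⟩ := lf_ex hπ s (st s)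
  obtain ⟨g'', hg''⟩ := lf_ex hπ u (st u)
  obtain ⟨A, hA⟩ := adm hπ hJ H hg hg' hg''
  choose lam hlam using fun x => rd_surj (ℓ := ℓ) _ (π x)
  have hd : Ad (toLin' g) n (Mu _ J) := (C.adm _ _ _ _ _ A).1 J n (by omega)
  have c1 : Cc Φ (dd pr P) P n (toLin' g) (Mu _ J) fun h => lam (ψ h) := by
    refine C.lvl _ _ _ _ n' n _ _ _ hΦ.z ⟨hd.1, hA⟩ hd
      (C.map _ _ _ _ _ _ T _ ⊥ _ lam ψ hd.1 (fun x hx => ?_) (fun x y => ?_) (fun x => ?_) hψ)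
    · rw [← rd_zero, hlam, AddSubgroup.mem_bot.1 hx, map_zero]
    · rw [← rd_zero, map_sub, map_sub, hlam, hlam, hlam, map_add, add_sub_cancel_left, sub_self]
    · rw [← rd_zero, map_sub, hlam, hT, hg x _ (hlam x), sub_self]
  refine ⟨ℓ, ⟨g, g', g'', a, n⟩, hℓ, rfl, rfl, ⟨A, hn, hJ⟩, _, ⟨_, c1, rfl⟩, fun W hW hv => ?_⟩
  have m1 : Mu (Fin ℓ → ℤ) J ≤ W.comap (rd ℓ 2) := fun y hy => by
    have : rd ℓ 2 y = 0 := (rd_zero (J := 1)).2 (mu_le (by omega) hy)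
    rw [AddSubgroup.mem_comap, this]
    exact zero_mem W
  have m2 : ∀ y ∈ W.comap (rd ℓ 2), toLin' g y ∈ W.comap (rd ℓ 2) ∧
      toLin' g' y ∈ W.comap (rd ℓ 2) ∧ toLin' g'' y ∈ W.comap (rd ℓ 2) := fun y hy => by
    simp only [AddSubgroup.mem_comap, rd_bar]
    exact hW _ hy
  have m3 : ∀ h, lam (ψ h) ∈ W.comap (rd ℓ 2) := by
    refine C.det _ _ _ _ _ _ _ _ _ hΦ hd m1 (fun y hy => (m2 y hy).1) hL.prime hL.md c1
      fun l hl hP h1 => ?_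
    obtain ⟨-, -, -, -, -, -, -, -, -, -, -, -, k⟩ := C.lab ι Φ pr P i1 hΦ hL
    rcases (k l hl).1 h1 with h | ⟨j, rfl⟩ | ⟨rfl, -⟩
    · exact absurd h hP
    · exact hv (some j)
    · exact hv none
  have m4 := gen (((W.comap (rd ℓ 2)).map (rd ℓ (2 ^ J))).comap π)
    (fun x ⟨y, hy, e⟩ => ⟨⟨_, (m2 y hy).1, hg x y e⟩, ⟨_, (m2 y hy).2.1, hg' x y e⟩,
      ⟨_, (m2 y hy).2.2, hg'' x y e⟩⟩) fun h => ⟨_, m3 h, hlam _⟩
  refine eq_top_iff.2 fun v _ => ?_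
  obtain ⟨y, rfl⟩ := rd_surj 2 v
  obtain ⟨x, hx⟩ := hπ (rd ℓ _ y)
  obtain ⟨y', hy', e⟩ : x ∈ ((W.comap (rd ℓ 2)).map (rd ℓ (2 ^ J))).comap π := m4 ▸ trivial
  have := add_mem (m1 (rd_zero.1 (show rd ℓ (2 ^ J) (y - y') = 0 by
    rw [map_sub, e, hx, sub_self]))) hy'
  rwa [sub_add_cancel] at this

theorem mid (C : SCC) (G : SGAP) (hΦ : Ax1 Φ) (hL : Lb pr P i1) (hJ : 2 ≤ J) (hn : a + J ≤ n)
    {A : Type} [CommRing A] [Finite A] {τ s u : A} (H : Sc τ s u a n') {ψ : Ga → A}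
    (hψ : Cc Φ (dd pr P) P n' (LinearMap.mulLeft ℤ τ) ⊥ ψ) (h2 : ∀ y : A, ∃ k : ℕ, 2 ^ k • y = 0)
    (hρ : Nat.card {x : A // 2 ^ 1 • x = 0} ≤ 2 ^ ρ) (hy : ∃ h, 2 ^ (J * (ρ + 1)) • ψ h ≠ 0) :
    ∃ (ℓ : ℕ) (μ : Md ℓ), 1 ≤ ℓ ∧ μ.a = a ∧ μ.n = n ∧ μ.Ok J ∧ (Vg Φ μ pr P J).Nonempty := by
  let R : Subring A := Subring.closure {τ, s, u}
  let B : Submodule R A := Submodule.span R (Set.range ψ)
  let τ' : R := ⟨τ, Subring.subset_closure (by simp)⟩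
  let s' : R := ⟨s, Subring.subset_closure (by simp)⟩
  let u' : R := ⟨u, Subring.subset_closure (by simp)⟩
  let ψ' : Ga → B := fun h => ⟨ψ h, Submodule.subset_span ⟨h, rfl⟩⟩
  obtain ⟨k, hk⟩ := H.nil
  obtain ⟨h₀, hy⟩ := hy
  have inj : Function.Injective B.subtype.toAddMonoidHom := Subtype.val_injective
  refine main C G hΦ hL hJ hn (R := R) (B := B) (τ := τ') (s := s') (u := u') (n' := n')
    ⟨Subtype.ext H.hs, fun h => Subtype.ext (H.hu h), fun h => Subtype.ext (H.h0 h),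
      ⟨k, Subtype.ext hk⟩, Subtype.ext H.pw⟩
    (T := (DistribSMul.toAddMonoidHom B τ').toIntLinearMap) (fun _ => rfl) (ψ := ψ') ?_
    (fun W hW hv => ?_) (fun y => (h2 y).imp fun _ h => Subtype.ext h) ?_
    ⟨ψ' h₀, fun h => hy (congrArg Subtype.val h)⟩
  · have := cc_comap (T := (DistribSMul.toAddMonoidHom B τ').toIntLinearMap) (ψ := ψ')
      B.subtype.toAddMonoidHom (fun _ => rfl) hψ
    rwa [AddMonoidHom.comap_bot, (AddMonoidHom.ker_eq_bot_iff _).2 inj] at this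
  · let V : AddSubgroup A := W.map B.subtype.toAddMonoidHom
    let Z : Subring A :=
      { carrier := {r | ∀ x ∈ V, r * x ∈ V}
        mul_mem' := fun h h' x hx => mul_assoc _ _ x ▸ h _ (h' x hx)
        one_mem' := fun x hx => (one_mul x).symm ▸ hx
        add_mem' := fun h h' x hx => (add_mul _ _ x).symm ▸ add_mem (h x hx) (h' x hx)
        zero_mem' := fun x _ => (zero_mul x).symm ▸ zero_mem V
        neg_mem' := fun h x hx => (neg_mul _ x).symm ▸ neg_mem (h x hx) }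
    have hZ : R ≤ Z := Subring.closure_le.2 (by
      rintro r (rfl | rfl | rfl) _ ⟨x, hx, rfl⟩
      · exact ⟨_, (hW x hx).1, rfl⟩
      · exact ⟨_, (hW x hx).2.1, rfl⟩
      · exact ⟨_, (hW x hx).2.2, rfl⟩)
    let V' : Submodule R A := { V with smul_mem' := fun r x hx => hZ r.2 x hx }
    have hB : B ≤ V' := Submodule.span_le.2 (by
      rintro _ ⟨h, rfl⟩
      exact ⟨_, hv h, rfl⟩)
    refine eq_top_iff.2 fun x _ => ?_
    obtain ⟨y, hy, e⟩ := hB x.2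
    exact inj e ▸ hy
  · rw [Mu, AddSubgroup.index_range]
    refine le_trans (Nat.card_le_card_of_injective
      (fun x => (⟨x.1.1, congrArg Subtype.val x.2⟩ : {x : A // 2 ^ 1 • x = 0})) ?_) hρ
    exact fun x y h => Subtype.ext (Subtype.ext (Subtype.mk.inj h))

theorem exu {O : Type} [CommRing O] [IsDomain O] [IsDiscreteValuationRing O] [CharZero O] {t : O}
    (h : Lv t a) : ∃ u : O, (a = 0 → u = 0) ∧ (a ≠ 0 → u * om (a - 1) t = 2) ∧
      ∃ k : ℕ, 2 ∣ u ^ k := by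
  rcases eq_or_ne a 0 with ha | ha
  · exact ⟨0, fun _ => rfl, fun h => absurd ha h, 1, by simp⟩
  have h1 := h.2 (a - 1) (by omega)
  obtain ⟨u, hu⟩ := (ValuationRing.dvd_total (2 : O) (om (a - 1) t)).resolve_left h1
  refine ⟨u, fun h => absurd h ha, fun _ => by rw [hu, mul_comm], ?_⟩
  obtain ⟨ϖ, hϖ⟩ := IsDiscreteValuationRing.exists_irreducible O
  obtain ⟨k, hk⟩ := IsDiscreteValuationRing.associated_pow_irreducible (two_ne_zero (α := O)) hϖ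
  refine ⟨k, hk.dvd.trans (pow_dvd_pow_of_dvd ?_ k)⟩
  rw [← Ideal.mem_span_singleton, ← hϖ.maximalIdeal_eq]
  intro hu'
  exact h1 (hu ▸ hu'.mul_right_dvd.2 dvd_rfl)

end LWL

open LWL in
theorem rowLWL : OfLWL := by
  intro C G ι _ _ Φ pr P i1 O _ _ _ _ t ρ J n n' a ψ hΦ hL hJ hn h0 hρ S
  obtain ⟨s, hs⟩ := S.lv.1
  obtain ⟨u, hu0, hu1, k, hk⟩ := exu S.lv
  generalize hm : J * (ρ + 1) = m at S
  let q := Ideal.Quotient.mk (Ideal.span {(2 : O)} ^ (m + 1))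
  have hq : ∀ x, q x = 0 ↔ 2 ^ (m + 1) ∣ x := fun x => by
    rw [Ideal.Quotient.eq_zero_iff_mem, Ideal.span_singleton_pow, Ideal.mem_span_singleton]
  have hM : ∀ (j : ℕ) (x : O), x ∈ Mu O j ↔ 2 ^ j ∣ x := fun j x => by
    simp only [mem_Mu, nsmul_eq_mul, Nat.cast_pow, Nat.cast_ofNat]
    exact ⟨fun ⟨y, h⟩ => ⟨y, h.symm⟩, fun ⟨y, h⟩ => ⟨y, h.symm⟩⟩
  have : (Mu O 1).FiniteIndex := ⟨h0⟩
  have : Finite (O ⧸ Ideal.span {(2 : O)}) := by
    refine Finite.of_surjective (QuotientAddGroup.lift (Mu O 1)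
      (Ideal.Quotient.mk (Ideal.span {(2 : O)})).toAddMonoidHom fun x hx => ?_) fun x => ?_
    · exact Ideal.Quotient.eq_zero_iff_mem.2 (Ideal.mem_span_singleton.2
        (by simpa using (hM 1 x).1 hx))
    · obtain ⟨y, rfl⟩ := Ideal.Quotient.mk_surjective x
      exact ⟨y, rfl⟩
  have : Finite (O ⧸ Ideal.span {(2 : O)} ^ (m + 1)) :=
    Ideal.finite_quotient_pow (IsNoetherian.noetherian _) _
  have sm : ∀ (j : ℕ) (x : O), 2 ^ j • q x = q (2 ^ j * x) := fun j x => by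
    rw [← map_nsmul, nsmul_eq_mul, Nat.cast_pow, Nat.cast_ofNat]
  refine mid C G hΦ hL hJ hn (ρ := ρ) (τ := q (1 + t)) (s := q s) (u := q u) (n' := n')
    (ψ := fun h => q (ψ h)) ⟨?_, fun h => ?_, fun h => ?_, ⟨k * (m + 1), ?_⟩, ?_⟩ ?_
    (fun y => ⟨m + 1, ?_⟩) ?_ ?_
  · have := congrArg q hs
    rw [om, map_sub, map_pow, map_one, map_mul, map_ofNat] at this
    exact sub_eq_zero.2 this
  · have := congrArg q (hu1 h)
    rw [om, map_mul, map_sub, map_pow, map_one, map_ofNat] at this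
    exact sub_eq_zero.2 this
  · rw [hu0 h, map_zero]
  · rw [← map_pow, hq, pow_mul]
    exact pow_dvd_pow_of_dvd hk _
  · have := (hq _).2 S.pw
    rwa [om, map_sub, map_pow, map_one] at this
  · refine C.map _ _ _ _ _ _ _ _ _ _ q ψ (fun x hx => ?_) (fun x hx => ?_) (fun x y => ?_)
      (fun x => ?_) S.cc
    · rw [AddSubgroup.mem_bot.1 hx, map_zero]
      exact zero_mem _
    · exact (hq x).2 ((hM _ x).1 hx)
    · rw [map_add, add_sub_cancel_left, sub_self]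
      exact zero_mem _
    · exact sub_eq_zero.2 (map_mul q _ _)
  · obtain ⟨y, rfl⟩ := Ideal.Quotient.mk_surjective y
    rw [sm, hq]
    exact dvd_mul_right _ _
  · let g : O →+ O ⧸ Ideal.span {(2 : O)} ^ (m + 1) :=
      q.toAddMonoidHom.comp (AddMonoidHom.mulLeft (2 ^ m))
    have h1 : Mu O 1 ≤ g.ker := fun x hx => (hq _).2 (by
      obtain ⟨y, rfl⟩ := (hM 1 x).1 hx
      exact ⟨y, by change 2 ^ m * (2 ^ 1 * y) = _; ring⟩)
    refine le_trans ?_ ((AddSubgroup.index_antitone h1).trans hρ)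
    rw [AddSubgroup.index_ker]
    refine Nat.card_le_card_of_injective (fun x => ⟨x.1, ?_⟩)
      fun x y h => Subtype.ext (Subtype.mk.inj h)
    obtain ⟨x, hx⟩ := x
    obtain ⟨x, rfl⟩ := Ideal.Quotient.mk_surjective x
    rw [sm, hq, pow_succ', pow_one, mul_dvd_mul_iff_left two_ne_zero] at hx
    obtain ⟨y, rfl⟩ := hx
    exact ⟨y, rfl⟩
  · obtain ⟨h, hh⟩ := S.un
    refine ⟨h, fun e => S.eg.1 ?_⟩
    rw [hm, sm, hq, pow_succ, mul_dvd_mul_iff_left (pow_ne_zero _ two_ne_zero)] at e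
    exact isUnit_of_dvd_unit e hh

end Pool.Agent.MP_1246c0_nt.H25
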